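import Pool.Agent.H30.AW.Targets
import Pool.Agent.H1.AV.COD

/-!
# MUL: zeros along several independent pairs
-/

set_option autoImplicit false

namespace Pool.Agent.H56.AW

open MvPolynomial SC Pool.Agent.H27.LV Pool.Agent.H30.AV Pool.Agent.H30.AW

section

variable {L σ : Type} [Field L]

/-- polynomials all of whose monomials have degree at least `w` in the variables `a`, `b` -/
def Jd (a b : σ) (w : ℕ) : Ideal (MvPolynomial σ L) where
  carrier := {C | ∀ ν, coeff ν C ≠ 0 → w ≤ ν a + ν b}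
  zero_mem' := by
    intro ν h
    exact absurd (coeff_zero ν) h
  add_mem' := by
    intro C D hC hD ν h
    rw [coeff_add] at h
    by_cases h1 : coeff ν C = 0
    · rw [h1, zero_add] at h
      exact hD ν h
    · exact hC ν h1
  smul_mem' := by
    classical
    intro r C hC ν h
    rw [smul_eq_mul, coeff_mul] at h
    obtain ⟨p, hp, hp'⟩ := Finset.exists_ne_zero_of_sum_ne_zero h
    have h1 := hC p.2 (right_ne_zero_of_mul hp')
    have h2 := Finset.HasAntidiagonal.mem_antidiagonal.1 hp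
    rw [← h2]
    simp only [Finsupp.add_apply]
    omega

theorem Jd_mul {a b : σ} {w w' : ℕ} : (Jd a b w : Ideal (MvPolynomial σ L)) * Jd a b w' ≤
    Jd a b (w + w') := by
  classical
  rw [Ideal.mul_le]
  intro C hC D hD ν h
  rw [coeff_mul] at h
  obtain ⟨p, hp, hp'⟩ := Finset.exists_ne_zero_of_sum_ne_zero h
  have h1 := hC p.1 (left_ne_zero_of_mul hp')
  have h3 := hD p.2 (right_ne_zero_of_mul hp')
  have h2 := Finset.HasAntidiagonal.mem_antidiagonal.1 hp
  rw [← h2]
  simp only [Finsupp.add_apply]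
  omega

theorem span_le_Jd (a b : σ) (w : ℕ) :
    (Ideal.span {X a, X b} : Ideal (MvPolynomial σ L)) ^ w ≤ Jd a b w := by
  classical
  induction w with
  | zero =>
    intro C _ ν _
    exact Nat.zero_le _
  | succ w ih =>
    rw [pow_succ]
    refine (Ideal.mul_mono ih ?_).trans Jd_mul
    rw [Ideal.span_le]
    rintro C hC ν hν
    rcases hC with rfl | hC
    · rw [coeff_X'] at hν
      split_ifs at hν with h
      · rw [← h]
        simp
      · exact absurd rfl hν
    · rw [Set.mem_singleton_iff] at hC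
      subst hC
      rw [coeff_X'] at hν
      split_ifs at hν with h
      · rw [← h]
        simp
      · exact absurd rfl hν

end

theorem pow_mul_mem {R : Type} [CommRing R] (x y : R) (p q w : ℕ) (h : w ≤ p + q) :
    x ^ p * y ^ q ∈ (Ideal.span {x, y}) ^ w := by
  refine Ideal.pow_le_pow_right h ?_
  rw [pow_add]
  exact Ideal.mul_mem_mul (Ideal.pow_mem_pow (Ideal.subset_span (by simp)) _)
    (Ideal.pow_mem_pow (Ideal.subset_span (by simp)) _)

/-- substitution of elements -/
theorem aeval_mem {L : Type} [Field L] {R : Type} [CommRing R] [Algebra L R] {β s : ℕ} (w : ℕ)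
    (t : Fin β → R) (κ : Fin s × Fin 2 → Fin β) (hκ : Function.Injective κ) (T T' : Fin s → R)
    (hT : ∀ j, t (κ (j, 0)) = T j) (hT' : ∀ j, t (κ (j, 1)) = T' j)
    (f : MvPolynomial (Fin β) L)
    (hf : ∀ ν ∈ f.support, ∀ j, w ≤ ν (κ (j, 0)) + ν (κ (j, 1))) :
    aeval t f ∈ ∏ j, (Ideal.span {T j, T' j}) ^ w := by
  classical
  rw [f.as_sum, map_sum]
  refine Ideal.sum_mem _ fun ν hν => ?_
  rw [aeval_monomial, Finsupp.prod_fintype _ _ (fun i => pow_zero _)]
  refine Ideal.mul_mem_left _ _ ?_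
  rw [← Finset.prod_mul_prod_compl (Finset.univ.image κ)]
  refine Ideal.mul_mem_right _ _ ?_
  rw [Finset.prod_image (fun x _ y _ h => hκ h), Fintype.prod_prod_type]
  refine Ideal.prod_mem_prod fun j _ => ?_
  rw [Fin.prod_univ_two, hT, hT']
  exact pow_mul_mem _ _ _ _ _ (hf ν hν j)

theorem pf_MUL (hNN2 : T_NN2) (hFNT : T_FNT) (hALI : T_ALI) (hLAT : T_LAT) : T_MUL := by
  classical
  intro L τ _ _ _ β s P T T' hs hP hPh htr hT hT' hQ
  have hs' : s * 2 ≤ β + 2 := by omega
  -- the system of parameters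
  let u : Fin (s * 2) → MvPolynomial τ L := fun i =>
    if (finProdFinEquiv.symm i).2 = 0 then T (finProdFinEquiv.symm i).1
      else T' (finProdFinEquiv.symm i).1
  have hu0 : ∀ j : Fin s, u (finProdFinEquiv (j, (0 : Fin 2))) = T j := by
    intro j
    simp only [u, Equiv.symm_apply_apply, if_true]
  have hu1 : ∀ j : Fin s, u (finProdFinEquiv (j, (1 : Fin 2))) = T' j := by
    intro j
    simp only [u, Equiv.symm_apply_apply]
    rw [if_neg (by decide)]
  obtain ⟨t, ht1, htu, htQ⟩ := hNN2 L τ β (s * 2) P u hs' hP hPh (by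
    intro i
    simp only [u]
    split_ifs
    · exact hT _
    · exact hT' _) (by
    intro Q hQ1 hQ2 hQ3 hQ4
    have h1 := hQ Q hQ1 hQ2 hQ3 (fun j => by rw [← hu0 j]; exact hQ4 _)
      (fun j => by rw [← hu1 j]; exact hQ4 _)
    rwa [mul_comm 2 s] at h1)
  let κ : Fin s × Fin 2 → Fin (β + 2) := fun p => Fin.castLE hs' (finProdFinEquiv p)
  have hκ : Function.Injective κ := fun p q h =>
    finProdFinEquiv.injective (Fin.castLE_injective hs' h)
  have ht0 : ∀ j, t (κ (j, 0)) = T j := fun j => (htu _).trans (hu0 j)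
  have ht0' : ∀ j, t (κ (j, 1)) = T' j := fun j => (htu _).trans (hu1 j)
  obtain ⟨m, hm⟩ := hFNT L τ (P ⊔ Ideal.span (Set.range t))
    (Pool.Agent.H1.AV.isHom_sup hPh (Pool.Agent.H1.AV.isHom_span t ht1))
    (fun Q hQ1 hQ2 hQ3 => htQ Q hQ1 hQ2 (le_sup_left.trans hQ3)
      (fun i => hQ3 (le_sup_right (a := P) (Ideal.subset_span ⟨i, rfl⟩))))
  have hind := hALI L τ β m P t hP hPh htr ht1 hm
  obtain ⟨d, e, δ, g0, c, hd, he, hg0, hg0', hli, hrep⟩ := hLAT L τ β m P t hP hPh ht1 hm hind
  refine ⟨c, aeval t g0, ?_, fun h => hg0' (hind g0 h), ?_⟩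
  · have := hg0.aeval t ht1
    rwa [one_mul] at this
  intro w G hG
  -- every polynomial
  have hall : ∀ H : MvPolynomial τ L, ∃ C : Fin d → MvPolynomial (Fin (β + 2)) L,
      aeval t g0 * H - ∑ j, aeval t (C j) * e j ∈ P := by
    intro H
    choose h hh using fun N : ℕ => hrep N (homogeneousComponent N H)
      (homogeneousComponent_isHomogeneous N H)
    refine ⟨fun j => ∑ N ∈ Finset.range (H.totalDegree + 1), h N j, ?_⟩
    have e1 : aeval t g0 * H -
        ∑ j, aeval t (∑ N ∈ Finset.range (H.totalDegree + 1), h N j) * e j =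
        ∑ N ∈ Finset.range (H.totalDegree + 1),
          (aeval t g0 * homogeneousComponent N H - ∑ j, aeval t (h N j) * e j) := by
      rw [Finset.sum_sub_distrib, ← Finset.mul_sum, sum_homogeneousComponent, Finset.sum_comm]
      congr 1
      refine Finset.sum_congr rfl fun j _ => ?_
      rw [map_sum, Finset.sum_mul]
    rw [e1]
    exact Ideal.sum_mem _ fun N _ => (hh N).2
  -- elements of the ideals
  have hgood : ∀ (I : Ideal (MvPolynomial (Fin (β + 2)) L)) (y : MvPolynomial τ L),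
      y ∈ Ideal.map (aeval t : MvPolynomial (Fin (β + 2)) L →ₐ[L] MvPolynomial τ L) I →
      ∀ H : MvPolynomial τ L, ∃ C : Fin d → MvPolynomial (Fin (β + 2)) L, (∀ j, C j ∈ I) ∧
        aeval t g0 * (y * H) - ∑ j, aeval t (C j) * e j ∈ P := by
    intro I y hy
    refine Submodule.span_induction (p := fun y _ => ∀ H : MvPolynomial τ L,
      ∃ C : Fin d → MvPolynomial (Fin (β + 2)) L, (∀ j, C j ∈ I) ∧
        aeval t g0 * (y * H) - ∑ j, aeval t (C j) * e j ∈ P) ?_ ?_ ?_ ?_ hy
    · rintro _ ⟨x, hx, rfl⟩ H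
      obtain ⟨C, hC⟩ := hall H
      refine ⟨fun j => x * C j, fun j => Ideal.mul_mem_right _ _ hx, ?_⟩
      have e1 : aeval t g0 * (aeval t x * H) - ∑ j, aeval t (x * C j) * e j =
          aeval t x * (aeval t g0 * H - ∑ j, aeval t (C j) * e j) := by
        rw [mul_sub, Finset.mul_sum]
        congr 1
        · ring
        · refine Finset.sum_congr rfl fun j _ => ?_
          rw [map_mul]
          ring
      have e2 : aeval t g0 * ((aeval t : MvPolynomial (Fin (β + 2)) L →ₐ[L]
          MvPolynomial τ L) x * H) - ∑ j, aeval t (x * C j) * e j ∈ P := by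
        rw [e1]
        exact Ideal.mul_mem_left _ _ hC
      exact e2
    · intro H
      refine ⟨fun _ => 0, fun _ => I.zero_mem, ?_⟩
      simp
    · intro y y' _ _ h h' H
      obtain ⟨C, hC, hC'⟩ := h H
      obtain ⟨D, hD, hD'⟩ := h' H
      refine ⟨fun j => C j + D j, fun j => I.add_mem (hC j) (hD j), ?_⟩
      have e1 : aeval t g0 * ((y + y') * H) - ∑ j, aeval t (C j + D j) * e j =
          (aeval t g0 * (y * H) - ∑ j, aeval t (C j) * e j) +
          (aeval t g0 * (y' * H) - ∑ j, aeval t (D j) * e j) := by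
        simp only [map_add, add_mul, Finset.sum_add_distrib]
        ring
      rw [e1]
      exact P.add_mem hC' hD'
    · intro r y _ h H
      obtain ⟨C, hC, hC'⟩ := h (r * H)
      refine ⟨C, hC, ?_⟩
      rwa [smul_eq_mul, show r * y * H = y * (r * H) by ring]
  have hpair : ∀ j, ∃ C : Fin d → MvPolynomial (Fin (β + 2)) L,
      (∀ i, C i ∈ (Ideal.span {X (κ (j, 0)), X (κ (j, 1))} :
        Ideal (MvPolynomial (Fin (β + 2)) L)) ^ w) ∧
      aeval t g0 * G - ∑ i, aeval t (C i) * e i ∈ P := by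
    intro j
    obtain ⟨y, hy, p, hp, hyp⟩ := Submodule.mem_sup.1 (hG j)
    have hy' : y ∈ Ideal.map (aeval t : MvPolynomial (Fin (β + 2)) L →ₐ[L] MvPolynomial τ L)
        ((Ideal.span {X (κ (j, 0)), X (κ (j, 1))}) ^ w) := by
      rw [Ideal.map_pow, Ideal.map_span, Set.image_pair, aeval_X, aeval_X, ht0, ht0']
      exact hy
    obtain ⟨C, hC, hC'⟩ := hgood _ y hy' 1
    refine ⟨C, hC, ?_⟩
    rw [← hyp]
    have e1 : aeval t g0 * (y + p) - ∑ i, aeval t (C i) * e i =
        (aeval t g0 * (y * 1) - ∑ i, aeval t (C i) * e i) + aeval t g0 * p := by ring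
    rw [e1]
    exact P.add_mem hC' (Ideal.mul_mem_left _ _ hp)
  rcases Nat.eq_zero_or_pos s with h0 | h0
  · subst h0
    rw [Finset.univ_eq_empty, Finset.prod_empty, Ideal.one_eq_top, top_sup_eq]
    exact Submodule.mem_top
  obtain ⟨C, -, hC'⟩ := hpair ⟨0, h0⟩
  have hCj : ∀ j i, C i ∈ (Ideal.span {X (κ (j, 0)), X (κ (j, 1))} :
        Ideal (MvPolynomial (Fin (β + 2)) L)) ^ w := by
    intro j
    obtain ⟨D, hD, hD'⟩ := hpair j
    have h1 : (fun i => C i - D i) = 0 := by
      apply hli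
      have e1 : ∑ i, aeval t (C i - D i) * e i =
          (aeval t g0 * G - ∑ i, aeval t (D i) * e i) -
          (aeval t g0 * G - ∑ i, aeval t (C i) * e i) := by
        simp only [map_sub, sub_mul, Finset.sum_sub_distrib]
        ring
      rw [e1]
      exact P.sub_mem hD' hC'
    intro i
    have h2 := congrFun h1 i
    simp only [Pi.zero_apply] at h2
    rw [sub_eq_zero.1 h2]
    exact hD i
  have hmem : ∀ i, aeval t (C i) ∈ ∏ j, (Ideal.span {T j, T' j}) ^ w := by
    intro i
    refine aeval_mem w t κ hκ T T' ht0 ht0' (C i) fun ν hν j => ?_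
    exact span_le_Jd _ _ w (hCj j i) ν (mem_support_iff.1 hν)
  have h9 : aeval t g0 * G = ∑ i, aeval t (C i) * e i +
      (aeval t g0 * G - ∑ i, aeval t (C i) * e i) := by ring
  rw [h9]
  exact Submodule.add_mem_sup (Ideal.sum_mem _ fun i _ => Ideal.mul_mem_right _ _ (hmem i)) hC'

end Pool.Agent.H56.AW
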